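import Pool.Agent.Helper92.GG.RK
import Pool.Agent.Helper92.GG.Stmts

/-! # Module REL: the relation between the orders -/

set_option autoImplicit false

namespace Pool.Agent.Helper92.GG

open MvPolynomial
open Pool.Agent.Helper49.Girth (cl ty ty_succ ty_add ty_not mem_cl mem_cl' coe_cl subset_cl
  mem_cl_of_mem cl_le_cl cl_mono root_mem_cl aeval_mem)

universe u

section algclosed

variable {K : Type u} {L : Type u} [Field K] [Field L] [Algebra K L]

theorem rel_isAlgClosed_cl [IsAlgClosed L] (s : Set L) : IsAlgClosed (cl K s) := by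
  apply IsAlgClosed.of_exists_root
  intro p hpm hpi
  obtain ⟨a, ha⟩ := IsAlgClosed.exists_eval₂_eq_zero (algebraMap (cl K s) L) p
    hpi.degree_pos.ne'
  have hmem : a ∈ cl K s := by
    apply root_mem_cl (p.map (algebraMap (cl K s) L))
    · exact (Polynomial.map_ne_zero_iff Subtype.val_injective).mpr hpi.ne_zero
    · intro n
      rw [Polynomial.coeff_map]
      exact (p.coeff n).2
    · rw [Polynomial.eval_map]; exact ha
  refine ⟨⟨a, hmem⟩, ?_⟩
  apply Subtype.val_injective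
  have h3 := Polynomial.hom_eval₂ p (RingHom.id (cl K s)) (algebraMap (cl K s) L) ⟨a, hmem⟩
  rw [RingHom.comp_id] at h3
  have h4 : Polynomial.eval₂ (algebraMap (cl K s) L) (algebraMap (cl K s) L ⟨a, hmem⟩) p = 0 := ha
  rw [h4] at h3
  exact h3

end algclosed

section red

variable {K : Type u} {L : Type u} [Field K] [Field L] [Algebra K L] (w : KVal K L)

/-- the residue map as a ring homomorphism -/
noncomputable def relres : w.V →+* w.κ := IsLocalRing.residue w.V

theorem rel_red_eq {a : L} (ha : a ∈ w.V) : w.red a = relres w ⟨a, ha⟩ := dif_pos ha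

theorem rel_red_sub {a b : L} (ha : a ∈ w.V) (hb : b ∈ w.V) :
    w.red (a - b) = w.red a - w.red b := by
  rw [rel_red_eq w ha, rel_red_eq w hb, rel_red_eq w (sub_mem ha hb), ← map_sub]
  rfl

theorem rel_red_eq_zero_iff {a : L} (ha : a ∈ w.V) : w.red a = 0 ↔ w.V.valuation a < 1 := by
  rw [rel_red_eq w ha]
  have h1 : relres w ⟨a, ha⟩ = 0 ↔ (⟨a, ha⟩ : w.V) ∈ IsLocalRing.maximalIdeal w.V :=
    IsLocalRing.residue_eq_zero_iff _
  have h2 := w.V.valuation_lt_one_iff ⟨a, ha⟩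
  exact h1.trans h2

theorem rel_val_eq_one {a : L} (ha : a ∈ w.V) (h : w.red a ≠ 0) : w.V.valuation a = 1 := by
  have h1 : ¬ w.V.valuation a < 1 := fun h' => h ((rel_red_eq_zero_iff w ha).mpr h')
  have h2 : w.V.valuation a ≤ 1 := (w.V.valuation_le_one_iff a).mpr ha
  exact le_antisymm h2 (not_lt.mp h1)

theorem rel_triv_val {s : Set L} (h : w.Triv s) {a : L} (ha : a ∈ s) (h0 : a ≠ 0) :
    w.V.valuation a = 1 :=
  rel_val_eq_one w (h a ha).1 ((h a ha).2 h0)

/-- residues are injective on trivially valued subfields -/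
theorem rel_red_inj {s : Set L} (h : w.Triv (cl K s)) {a b : L} (ha : a ∈ cl K s)
    (hb : b ∈ cl K s) (hab : w.red a = w.red b) : a = b := by
  by_contra hne
  have h1 := (h (a - b) (sub_mem ha hb)).2 (sub_ne_zero.mpr hne)
  apply h1
  rw [rel_red_sub w (h a ha).1 (h b hb).1, hab, sub_self]

end red

section yy

/-- the product used in the proof -/
noncomputable def relYY {P Γ : Type u} [CommGroupWithZero Γ] (FF : Finset P) (G H : P → Γ)
    (b b' A : ℕ) (X1 X2 X4 : Γ) (a1 a2 a4 : ℤ) : Γ :=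
  (∏ p ∈ FF, (G p ^ b' / H p ^ b)) ^ A * X1 ^ a1 * X2 ^ a2 * X4 ^ a4

theorem rel_map_YY {P L Γ : Type u} [Field L] [LinearOrderedCommGroupWithZero Γ]
    (f : Valuation L Γ) (FF : Finset P) (G H : P → L)
    (b b' A : ℕ) (X1 X2 X4 : L) (a1 a2 a4 : ℤ) :
    f (relYY FF G H b b' A X1 X2 X4 a1 a2 a4) =
      relYY FF (fun p => f (G p)) (fun p => f (H p)) b b' A (f X1) (f X2) (f X4) a1 a2 a4 := by
  unfold relYY
  rw [map_mul, map_mul, map_mul, map_pow, map_prod, map_zpow₀, map_zpow₀, map_zpow₀]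
  congr 4
  apply Finset.prod_congr rfl
  intro p _
  rw [map_div₀, map_pow, map_pow]

/-- evaluation of the product from the values of the factors -/
theorem rel_YY_eval {P Γ : Type u} [CommGroupWithZero Γ] (FF : Finset P) (G H : P → Γ)
    (b b' A : ℕ) (X1 X2 X4 : Γ) (a1 a2 a4 : ℤ) (E : P → Γ)
    (hE : ∀ p ∈ FF, (G p ^ A) ^ b' / (H p ^ A) ^ b = E p) :
    relYY FF G H b b' A X1 X2 X4 a1 a2 a4 = (∏ p ∈ FF, E p) * X1 ^ a1 * X2 ^ a2 * X4 ^ a4 := by
  unfold relYY
  rw [← Finset.prod_pow]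
  congr 3
  apply Finset.prod_congr rfl
  intro p hp
  rw [← hE p hp, div_pow, ← pow_mul, ← pow_mul, ← pow_mul, ← pow_mul, mul_comm b' A,
    mul_comm b A]

theorem one_zpow_relaux {Γ : Type u} [CommGroupWithZero Γ] {Z P : Γ} (a1 a2 a4 : ℤ)
    (h : Z = P * (1 : Γ) ^ a1 * (1 : Γ) ^ a2 * (1 : Γ) ^ a4) : Z = P := by
  rw [h, one_zpow, one_zpow, one_zpow, mul_one, mul_one, mul_one]

theorem rel_pow_div {Γ : Type u} [CommGroupWithZero Γ] {X : Γ} (hX : X ≠ 0) (e e' b b' : ℕ) :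
    (X ^ e) ^ b' / (X ^ e') ^ b = X ^ ((b' : ℤ) * e - b * e') := by
  rw [zpow_sub₀ hX, ← pow_mul, ← pow_mul]
  congr 1
  · rw [← zpow_natCast]; congr 1; push_cast; ring
  · rw [← zpow_natCast]; congr 1; push_cast; ring

end yy

section mov

variable {K : Type u} [Field K] [IsAlgClosed K] {n m : ℕ} {S : SysT K n m}
  {L : Type u} [Field L] [Algebra K L]

theorem rel_ne {σ : Bool} {s : Set L} {x u v : Fin n → L} (M : Mov S σ s x u v) :
    v (S.t σ) ≠ x (S.t σ) := by
  intro h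
  apply M.vt
  rw [h]
  exact cl_mono Set.subset_union_left (M.xs _)

theorem rel_u_mem (hE : ST_ENDS.{u}) {σ : Bool} {s : Set L} {x u v : Fin n → L}
    (M : Mov S σ s x u v) : ∀ d, u d ∈ cl K (Set.range x ∪ Set.range v) := by
  have h := hE K n m 1 S.toSys L σ 2 (fun i => if i = 0 then x else if i = 1 then u else v)
    S.two_le (by
      intro i hi
      have h01 : i = 0 ∨ i = 1 := by omega
      rcases h01 with rfl | rfl
      · exact M.xu
      · exact M.uv) (by
      intro i hi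
      have h0 : i = 0 := by omega
      subst h0
      intro hh
      have hxv : x = v := hh
      exact rel_ne M (by rw [hxv])) 1 (by norm_num)
  exact h

theorem rel_rk_two (hE : ST_ENDS.{u}) {σ : Bool} {s : Set L} {x u v : Fin n → L}
    (M : Mov S σ s x u v) : rk (cl K s) (Set.range v) = 2 := by
  have fx := Set.finite_range x
  have fu := Set.finite_range u
  have fv := Set.finite_range v
  have fs := M.fin
  have hu := rel_u_mem hE M
  -- ranks of the edges
  have e1 := S.rkV L σ x u M.xu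
  have e2 := S.rkE L σ x u M.xu
  have e3 := S.rkV L (!σ) u v M.uv
  have e4 := S.rkE L (!σ) u v M.uv
  have xs : Set.range x ⊆ cl K s := by rintro _ ⟨d, rfl⟩; exact M.xs d
  -- upper bound
  have s1 := rk_submod (K := K) fx fs fu
  have s2 := rk_submod (K := K) fu (fs.union fx) fv
  have s3 : rk K (Set.range x ∪ s) = rk K s := by
    rw [Set.union_comm]; exact rk_union_of_subset_cl xs
  have s4 : Set.range u ∪ (s ∪ Set.range x) = Set.range x ∪ s ∪ Set.range u := by
    ext a; simp only [Set.mem_union]; tauto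
  rw [s4] at s2
  -- lower bound
  have l1 : rk K (insert (u (S.t (!σ))) s) = rk K s + 1 := rk_insert_of_notMem fs M.ut
  have l2 : rk K (insert (u (S.t (!σ))) s) ≤ rk K (s ∪ Set.range u) :=
    rk_mono (fs.union fu) (Set.insert_subset (Or.inr ⟨_, rfl⟩) Set.subset_union_left)
  have l3 : rk K (insert (v (S.t σ)) (s ∪ Set.range u)) = rk K (s ∪ Set.range u) + 1 :=
    rk_insert_of_notMem (fs.union fu) M.vt
  have l4 : rk K (insert (v (S.t σ)) (s ∪ Set.range u)) ≤
      rk K (Set.range x ∪ s ∪ Set.range u ∪ Set.range v) := by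
    apply rk_mono (((fx.union fs).union fu).union fv)
    refine Set.insert_subset ?_ ?_
    · exact Or.inr ⟨_, rfl⟩
    intro a ha
    rcases ha with ha | ha
    · exact Or.inl (Or.inl (Or.inr ha))
    · exact Or.inl (Or.inr ha)
  have l5 : rk K (s ∪ Set.range v) = rk K (Set.range x ∪ s ∪ Set.range u ∪ Set.range v) := by
    apply rk_congr
    apply cl_eq_of_subset
    · intro a ha
      rcases ha with ha | ha
      · exact Or.inl (Or.inl (Or.inr ha))
      · exact Or.inr ha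
    · intro a ha
      rcases ha with ((ha | ha) | ha) | ha
      · exact cl_mono Set.subset_union_left (xs ha)
      · exact mem_cl_of_mem (Or.inl ha)
      · obtain ⟨d, rfl⟩ := ha
        refine cl_le_cl ?_ (hu d)
        rintro a (ha | ha)
        · exact cl_mono Set.subset_union_left (xs ha)
        · exact mem_cl_of_mem (Or.inr ha)
      · exact mem_cl_of_mem (Or.inr ha)
  have l6 := rk_union_eq (K := K) fs fv
  omega

end mov

section main

variable {K : Type u} [Field K] [IsAlgClosed K] {n m : ℕ} {S : SysT K n m} (D : RData S)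
  {L : Type u} [Field L] [Algebra K L] {ρ : Bool}

theorem rel_ty_m (S : SysT K n m) (ρ : Bool) : ty ρ m = !(ty ρ (m - 1)) := by
  have h : m = (m - 1) + 1 := by have := S.two_le; omega
  conv_lhs => rw [h]
  exact ty_succ ρ (m - 1)

/-- the coordinate of `u` -/
noncomputable def relut (T : Setup S ρ L) : L := T.u (S.t (ty ρ m))

/-- the function `Y` -/
noncomputable def relY (T : Setup S ρ L) (FF : Finset ((Fin n → L) × (Fin n → L)))
    (j j' b b' A : ℕ) (a1 a2 a4 : ℤ) : L :=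
  relYY FF (fun p => gfun D ρ (T.c p.1 p.2) (T.a p.1 p.2) j)
    (fun p => gfun D ρ (T.c p.1 p.2) (T.a p.1 p.2) j') b b' A
    (relut T - T.c₁) (relut T - T.c₂) (relut T - T.c₄) a1 a2 a4

/-- the value of `Y` -/
theorem rel_val_Y (T : Setup S ρ L) (FF : Finset ((Fin n → L) × (Fin n → L)))
    (j j' b b' A : ℕ) (a1 a2 a4 : ℤ) (w : KVal K L) :
    w.V.valuation (relY D T FF j j' b b' A a1 a2 a4) =
      relYY FF (fun p => w.V.valuation (gfun D ρ (T.c p.1 p.2) (T.a p.1 p.2) j))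
        (fun p => w.V.valuation (gfun D ρ (T.c p.1 p.2) (T.a p.1 p.2) j')) b b' A
        (w.V.valuation (relut T - T.c₁)) (w.V.valuation (relut T - T.c₂))
        (w.V.valuation (relut T - T.c₄)) a1 a2 a4 := by
  unfold relY
  rw [rel_map_YY]

theorem rel_ut_not (T : Setup S ρ L) : relut T ∉ cl K T.s := by
  have h := T.mov.ut
  rw [← rel_ty_m S ρ] at h
  exact h

/-- The analysis of good places. -/
theorem rel_good [IsAlgClosed L] (hA : ST_CASEA.{u}) (hA2 : ST_CASEA2.{u}) (hB : ST_CASEB.{u})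
    (hF : ST_FIB.{u}) (hE : ST_ENDS.{u}) (O : Ords S D) (T : Setup S ρ L)
    (F1 F2 : Finset (Fin n → L)) (hF1 : ∀ z, z ∈ F1 ↔ z ∈ Fib S (ty ρ (m - 1)) T.x T.c₁)
    (hF2 : ∀ z, z ∈ F2 ↔ z ∈ Fib S (ty ρ (m - 1)) T.x T.c₂) (d : ℕ) (hd1 : F1.card = d)
    (hd2 : F2.card = d) (hd : 0 < d) (τ : Bool) (j j' : ℕ)
    (hj1 : 1 ≤ j) (hjm : j ≤ m) (hj1' : 1 ≤ j') (hjm' : j' ≤ m)
    (hτ : ty ρ (m - j) = τ) (hτ' : ty ρ (m - j') = τ) (α β : ℤ)
    (hα : α = O.B τ j' * O.B τ (j - 1) - O.B τ j * O.B τ (j' - 1))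
    (hβ : β = O.B τ j' * O.B τ (j + 1) - O.B τ j * O.B τ (j' + 1))
    (w : KVal K L) (hg : Good T.s T.x T.v w) :
    (w.V.valuation (relY D T (F1 ×ˢ F2) j j' (O.B τ j) (O.B τ j') O.A
        (-(d * α)) (-(d * β)) (d * (α + β))) = 1 ∧
      ¬ w.V.valuation (relut T - T.c₄) < 1) ∨
    (w.V.valuation (relY D T (F1 ×ˢ F2) j j' (O.B τ j) (O.B τ j') O.A
        (-(d * α)) (-(d * β)) (d * (α + β))) =
        w.V.valuation (relut T - T.c₄) ^ ((d : ℤ) * (α + β)) ∧
      w.V.valuation (relut T - T.c₄) < 1) := by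
  classical
  have hm2 := S.two_le
  rw [rel_val_Y]
  have tr := hg.triv
  have ne1 : w.V.valuation (relut T - T.c₁) ≠ 0 := by
    rw [Ne, map_eq_zero, sub_eq_zero]
    intro h; exact rel_ut_not T (h ▸ T.mem₁)
  have ne2 : w.V.valuation (relut T - T.c₂) ≠ 0 := by
    rw [Ne, map_eq_zero, sub_eq_zero]
    intro h; exact rel_ut_not T (h ▸ T.mem₂)
  have ne4 : w.V.valuation (relut T - T.c₄) ≠ 0 := by
    rw [Ne, map_eq_zero, sub_eq_zero]
    intro h; exact rel_ut_not T (h ▸ T.mem₄)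
  have cV : ∀ c ∈ cl K T.s, c ∈ w.V := fun c hc => (tr c hc).1
  -- values of differences
  have hsub : ∀ c ∈ cl K T.s, relut T ∈ w.V → w.red (relut T) ≠ w.red c →
      w.V.valuation (relut T - c) = 1 := by
    intro c hc hu h
    apply rel_val_eq_one w (sub_mem hu (cV c hc))
    rw [rel_red_sub w hu (cV c hc)]
    exact sub_ne_zero.mpr h
  have hsub' : ∀ c ∈ cl K T.s, relut T ∈ w.V → w.red (relut T) = w.red c →
      w.V.valuation (relut T - c) < 1 := by
    intro c hc hu h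
    rw [← rel_red_eq_zero_iff w (sub_mem hu (cV c hc)), rel_red_sub w hu (cV c hc), h, sub_self]
  -- tails
  have tail : ∀ p ∈ F1 ×ˢ F2, Tail S ρ T.s T.x T.v (T.c p.1 p.2) (T.a p.1 p.2) ∧
      T.c p.1 p.2 (m - 2) = p.1 ∧ T.c p.1 p.2 m = p.2 := by
    intro p hp
    rw [Finset.mem_product] at hp
    exact T.tail p.1 ((hF1 _).mp hp.1) p.2 ((hF2 _).mp hp.2)
  rcases Nat.lt_or_ge (rk K (Set.range (w.redv T.x) ∪ Set.range (w.redv T.v))) (m + 2) with
    hr | hr
  · -- Case A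
    left
    have hr' : rk K (Set.range (w.redv T.x) ∪ Set.range (w.redv T.v)) ≤ m + 1 := by omega
    have hgv : ∀ p ∈ F1 ×ˢ F2, ∀ i, 1 ≤ i → i ≤ m →
        w.V.valuation (gfun D ρ (T.c p.1 p.2) (T.a p.1 p.2) i) = 1 := by
      intro p hp i hi1 him
      exact hA K n m S D L ρ T.s T.x T.u T.v _ _ w T.mov (tail p hp).1 hg hr' i hi1 him
    rw [rel_YY_eval (E := fun _ => 1)]
    swap
    · intro p hp
      rw [hgv p hp j hj1 hjm, hgv p hp j' hj1' hjm', one_pow, one_pow, one_pow, div_one]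
    rw [Finset.prod_const_one, one_mul]
    by_cases hu : relut T ∈ w.V
    · have hne : ∀ c ∈ cl K T.s, c ∉ cl K (Set.range T.x) →
          w.V.valuation (relut T - c) = 1 := by
        intro c hc hcx
        apply hsub c hc hu
        intro h
        exact hcx (hA2 K n m S L (ty ρ (m - 1)) T.s T.x T.u T.v w T.mov hg hr' (relut T)
          (rel_u_mem hE T.mov _) hu c hc h)
      rw [hne _ T.mem₁ T.not₁, hne _ T.mem₂ T.not₂, hne _ T.mem₄ T.not₄]
      simp
    · have hbig : ∀ c ∈ cl K T.s, w.V.valuation (relut T - c) = w.V.valuation (relut T) := by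
        intro c hc
        apply Valuation.map_sub_eq_of_lt_left
        have h1 : w.V.valuation c ≤ 1 := (w.V.valuation_le_one_iff c).mpr (cV c hc)
        have h2 : ¬ w.V.valuation (relut T) ≤ 1 :=
          fun h => hu ((w.V.valuation_le_one_iff _).mp h)
        exact lt_of_le_of_lt h1 (not_le.mp h2)
      have h2 : ¬ w.V.valuation (relut T) ≤ 1 :=
        fun h => hu ((w.V.valuation_le_one_iff _).mp h)
      have hb1 := hbig _ T.mem₁
      have hb2 := hbig _ T.mem₂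
      have hb4 := hbig _ T.mem₄
      rw [hb4] at ne4
      rw [hb1, hb2, hb4, ← zpow_add₀ ne4, ← zpow_add₀ ne4]
      constructor
      · have : (-(↑d * α) + -(↑d * β) + ↑d * (α + β) : ℤ) = 0 := by ring
        rw [this, zpow_zero]
      · intro h
        exact h2 h.le
  · -- Case B
    have hF1ne : F1.Nonempty := by rw [← Finset.card_pos, hd1]; exact hd
    have hF2ne : F2.Nonempty := by rw [← Finset.card_pos, hd2]; exact hd
    obtain ⟨y1, hy1⟩ := hF1ne
    obtain ⟨y2, hy2⟩ := hF2ne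
    have hBp := fun (p : (Fin n → L) × (Fin n → L)) (hp : p ∈ F1 ×ˢ F2) =>
      hB K n m S D O L ρ T.s T.x T.u T.v _ _ w T.mov (tail p hp).1 hg hr
    obtain ⟨huV, hedge, -⟩ := hBp (y1, y2) (Finset.mk_mem_product hy1 hy2)
    have hu : relut T ∈ w.V := huV _
    -- coordinates of the fibres
    have zt1 : ∀ z ∈ F1, z (S.t (ty ρ m)) = T.c₁ := by
      intro z hz
      rw [rel_ty_m S ρ]
      exact ((hF1 z).mp hz).2
    have zt2 : ∀ z ∈ F2, z (S.t (ty ρ m)) = T.c₂ := by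
      intro z hz
      rw [rel_ty_m S ρ]
      exact ((hF2 z).mp hz).2
    have zs1 : ∀ z ∈ F1, ∀ c, z c ∈ cl K T.s := by
      intro z hz c
      obtain ⟨h1, h2, -⟩ := tail (z, y2) (Finset.mk_mem_product hz hy2)
      apply h1.sub
      rw [pts]
      refine Set.mem_biUnion (x := m - 2) (by rw [Set.mem_Iic]; omega) ?_
      exact ⟨c, by rw [h2]⟩
    have zs2 : ∀ z ∈ F2, ∀ c, z c ∈ cl K T.s := by
      intro z hz c
      obtain ⟨h1, -, h2⟩ := tail (y1, z) (Finset.mk_mem_product hy1 hz)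
      apply h1.sub
      rw [pts]
      refine Set.mem_biUnion (x := m) (by rw [Set.mem_Iic]; omega) ?_
      exact ⟨c, by rw [h2]⟩
    have inj1 : ∀ z ∈ F1, ∀ z' ∈ F1, w.redv z = w.redv z' → z = z' := by
      intro z hz z' hz' h
      funext c
      exact rel_red_inj w tr (zs1 z hz c) (zs1 z' hz' c) (congrFun h c)
    have inj2 : ∀ z ∈ F2, ∀ z' ∈ F2, w.redv z = w.redv z' → z = z' := by
      intro z hz z' hz' h
      funext c
      exact rel_red_inj w tr (zs2 z hz c) (zs2 z' hz' c) (congrFun h c)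
    have r12 : w.red T.c₁ ≠ w.red T.c₂ := fun h =>
      T.ne₁₂ (rel_red_inj w tr T.mem₁ T.mem₂ h)
    have r14 : w.red T.c₁ ≠ w.red T.c₄ := fun h =>
      T.ne₁₄ (rel_red_inj w tr T.mem₁ T.mem₄ h)
    have r24 : w.red T.c₂ ≠ w.red T.c₄ := fun h =>
      T.ne₂₄ (rel_red_inj w tr T.mem₂ T.mem₄ h)
    have e1 : ∀ z ∈ F1, w.redv T.u = w.redv z → w.red (relut T) = w.red T.c₁ := by
      intro z hz h
      have h1 := congrFun h (S.t (ty ρ m))
      have h2 : w.red (relut T) = w.red (z (S.t (ty ρ m))) := h1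
      rw [h2, zt1 z hz]
    have e2 : ∀ z ∈ F2, w.redv T.u = w.redv z → w.red (relut T) = w.red T.c₂ := by
      intro z hz h
      have h1 := congrFun h (S.t (ty ρ m))
      have h2 : w.red (relut T) = w.red (z (S.t (ty ρ m))) := h1
      rw [h2, zt2 z hz]
    -- values of the functions `g`
    have v1 : ∀ p ∈ F1 ×ˢ F2, w.redv T.u = w.redv p.1 → ∀ i, 1 ≤ i → i ≤ m →
        ty ρ (m - i) = τ →
        w.V.valuation (gfun D ρ (T.c p.1 p.2) (T.a p.1 p.2) i) ^ O.A =
          w.V.valuation (relut T - T.c₁) ^ O.B τ (i - 1) := by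
      intro p hp h i hi him hti
      have h1 := ((hBp p hp).2.2 i hi him).1
      rw [(tail p hp).2.1, zt1 p.1 (Finset.mem_product.mp hp).1, hti] at h1
      exact h1 h
    have v2 : ∀ p ∈ F1 ×ˢ F2, w.redv T.u = w.redv p.2 → ∀ i, 1 ≤ i → i ≤ m →
        ty ρ (m - i) = τ →
        w.V.valuation (gfun D ρ (T.c p.1 p.2) (T.a p.1 p.2) i) ^ O.A =
          w.V.valuation (relut T - T.c₂) ^ O.B τ (i + 1) := by
      intro p hp h i hi him hti
      have h1 := ((hBp p hp).2.2 i hi him).2.1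
      rw [(tail p hp).2.2, zt2 p.2 (Finset.mem_product.mp hp).2, hti] at h1
      exact h1 h
    have v3 : ∀ p ∈ F1 ×ˢ F2, w.redv T.u ≠ w.redv p.1 → w.redv T.u ≠ w.redv p.2 → ∀ i, 1 ≤ i →
        i ≤ m → w.V.valuation (gfun D ρ (T.c p.1 p.2) (T.a p.1 p.2) i) ^ O.A = 1 := by
      intro p hp h h' i hi him
      have h1 := ((hBp p hp).2.2 i hi him).2.2
      rw [(tail p hp).2.1, (tail p hp).2.2] at h1
      rw [h1 h h', one_pow]
    -- the points of the fibres
    have fib1 : w.red (relut T) = w.red T.c₁ → ∃ z ∈ F1, w.redv z = w.redv T.u := by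
      intro h
      obtain ⟨z, hz, hz'⟩ := (hF K n m S L (ty ρ (m - 1)) T.x T.vx).2.2.2 w T.s tr T.mov.xs
        T.c₁ T.mem₁ T.not₁ (w.redv T.u) ⟨hedge, by
          rw [← rel_ty_m S ρ]; exact h⟩
      exact ⟨z, (hF1 z).mpr hz, hz'⟩
    have fib2 : w.red (relut T) = w.red T.c₂ → ∃ z ∈ F2, w.redv z = w.redv T.u := by
      intro h
      obtain ⟨z, hz, hz'⟩ := (hF K n m S L (ty ρ (m - 1)) T.x T.vx).2.2.2 w T.s tr T.mov.xs
        T.c₂ T.mem₂ T.not₂ (w.redv T.u) ⟨hedge, by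
          rw [← rel_ty_m S ρ]; exact h⟩
      exact ⟨z, (hF2 z).mpr hz, hz'⟩
    by_cases h1 : w.red (relut T) = w.red T.c₁
    · left
      obtain ⟨z, hz, hzu⟩ := fib1 h1
      have x2 : w.V.valuation (relut T - T.c₂) = 1 := hsub _ T.mem₂ hu (by rw [h1]; exact r12)
      have x4 : w.V.valuation (relut T - T.c₄) = 1 := hsub _ T.mem₄ hu (by rw [h1]; exact r14)
      rw [rel_YY_eval (E := fun p => if p.1 = z then
        w.V.valuation (relut T - T.c₁) ^ α else 1)]
      swap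
      · intro p hp
        by_cases hpz : p.1 = z
        · rw [if_pos hpz, v1 p hp (by rw [hpz, hzu]) j hj1 hjm hτ,
            v1 p hp (by rw [hpz, hzu]) j' hj1' hjm' hτ', rel_pow_div ne1, ← hα]
        · have n1 : w.redv T.u ≠ w.redv p.1 := by
            intro h
            apply hpz
            apply inj1 _ (Finset.mem_product.mp hp).1 _ hz
            rw [← h, hzu]
          have n2 : w.redv T.u ≠ w.redv p.2 := by
            intro h
            have := e2 _ (Finset.mem_product.mp hp).2 h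
            rw [h1] at this
            exact r12 this
          rw [if_neg hpz, v3 p hp n1 n2 j hj1 hjm, v3 p hp n1 n2 j' hj1' hjm', one_pow, one_pow,
            div_one]
      constructor
      · rw [Finset.prod_product, x2, x4, one_zpow, one_zpow, mul_one, mul_one]
        have h3 : ∀ a ∈ F1, (∏ b ∈ F2, if a = z then
            w.V.valuation (relut T - T.c₁) ^ α else 1) = if a = z then
              w.V.valuation (relut T - T.c₁) ^ (d * α) else 1 := by
          intro a _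
          by_cases ha : a = z
          · rw [if_pos ha, if_pos ha, Finset.prod_const, hd2, ← zpow_natCast, ← zpow_mul,
              mul_comm]
          · rw [if_neg ha, if_neg ha, Finset.prod_const_one]
        rw [Finset.prod_congr rfl h3, Finset.prod_ite_eq' F1 z, if_pos hz, ← zpow_add₀ ne1,
          add_neg_cancel, zpow_zero]
      · rw [x4]; exact lt_irrefl _
    · by_cases h2 : w.red (relut T) = w.red T.c₂
      · left
        obtain ⟨z, hz, hzu⟩ := fib2 h2
        have x1 : w.V.valuation (relut T - T.c₁) = 1 := hsub _ T.mem₁ hu h1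
        have x4 : w.V.valuation (relut T - T.c₄) = 1 := hsub _ T.mem₄ hu (by rw [h2]; exact r24)
        rw [rel_YY_eval (E := fun p => if p.2 = z then
          w.V.valuation (relut T - T.c₂) ^ β else 1)]
        swap
        · intro p hp
          have n1 : w.redv T.u ≠ w.redv p.1 := fun h =>
            h1 (e1 _ (Finset.mem_product.mp hp).1 h)
          by_cases hpz : p.2 = z
          · rw [if_pos hpz, v2 p hp (by rw [hpz, hzu]) j hj1 hjm hτ,
              v2 p hp (by rw [hpz, hzu]) j' hj1' hjm' hτ', rel_pow_div ne2, ← hβ]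
          · have n2 : w.redv T.u ≠ w.redv p.2 := by
              intro h
              apply hpz
              apply inj2 _ (Finset.mem_product.mp hp).2 _ hz
              rw [← h, hzu]
            rw [if_neg hpz, v3 p hp n1 n2 j hj1 hjm, v3 p hp n1 n2 j' hj1' hjm', one_pow,
              one_pow, div_one]
        constructor
        · rw [Finset.prod_product_right, x1, x4, one_zpow, one_zpow, mul_one, mul_one]
          have h3 : ∀ a ∈ F2, (∏ b ∈ F1, if a = z then
              w.V.valuation (relut T - T.c₂) ^ β else 1) = if a = z then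
                w.V.valuation (relut T - T.c₂) ^ (d * β) else 1 := by
            intro a _
            by_cases ha : a = z
            · rw [if_pos ha, if_pos ha, Finset.prod_const, hd1, ← zpow_natCast, ← zpow_mul,
                mul_comm]
            · rw [if_neg ha, if_neg ha, Finset.prod_const_one]
          rw [Finset.prod_congr rfl h3, Finset.prod_ite_eq' F2 z, if_pos hz, ← zpow_add₀ ne2,
            add_neg_cancel, zpow_zero]
        · rw [x4]; exact lt_irrefl _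
      · have x1 : w.V.valuation (relut T - T.c₁) = 1 := hsub _ T.mem₁ hu h1
        have x2 : w.V.valuation (relut T - T.c₂) = 1 := hsub _ T.mem₂ hu h2
        rw [rel_YY_eval (E := fun _ => 1)]
        swap
        · intro p hp
          have n1 : w.redv T.u ≠ w.redv p.1 := fun h =>
            h1 (e1 _ (Finset.mem_product.mp hp).1 h)
          have n2 : w.redv T.u ≠ w.redv p.2 := fun h =>
            h2 (e2 _ (Finset.mem_product.mp hp).2 h)
          rw [v3 p hp n1 n2 j hj1 hjm, v3 p hp n1 n2 j' hj1' hjm', one_pow, one_pow, div_one]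
        rw [Finset.prod_const_one, one_mul, x1, x2, one_zpow, one_zpow, one_mul, one_mul]
        by_cases h4 : w.red (relut T) = w.red T.c₄
        · right
          exact ⟨rfl, hsub' _ T.mem₄ hu h4⟩
        · left
          have x4 := hsub _ T.mem₄ hu h4
          rw [x4, one_zpow]
          exact ⟨rfl, lt_irrefl _⟩

/-- the value of `Y` at the place `v → x` -/
theorem rel_valU [IsAlgClosed L] (hU : ST_CASEU.{u}) (O : Ords S D) (T : Setup S ρ L)
    (FF : Finset ((Fin n → L) × (Fin n → L)))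
    (hFF : ∀ p ∈ FF, p.1 ∈ Fib S (ty ρ (m - 1)) T.x T.c₁ ∧ p.2 ∈ Fib S (ty ρ (m - 1)) T.x T.c₂)
    (τ : Bool) (j j' : ℕ)
    (hj1 : 1 ≤ j) (hjm : j ≤ m) (hj1' : 1 ≤ j') (hjm' : j' ≤ m)
    (hτ : ty ρ (m - j) = τ) (hτ' : ty ρ (m - j') = τ) (a1 a2 a4 : ℤ) :
    (∀ c ∈ cl K T.s, T.w.V.valuation (relut T - c) = 1) ∧
    T.w.V.valuation (relY D T FF j j' (O.B τ j) (O.B τ j') O.A a1 a2 a4) = 1 := by
  have h1 : ∀ c ∈ cl K T.s, T.w.V.valuation (relut T - c) = 1 := by
    intro c hc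
    apply rel_triv_val T.w T.wtriv
    · apply sub_mem
      · exact mem_cl_of_mem (Or.inr ⟨_, rfl⟩)
      · exact cl_mono Set.subset_union_left hc
    · rw [Ne, sub_eq_zero]
      intro h; exact rel_ut_not T (h ▸ hc)
  refine ⟨h1, ?_⟩
  rw [rel_val_Y, h1 _ T.mem₁, h1 _ T.mem₂, h1 _ T.mem₄, one_zpow_relaux a1 a2 a4
    (rel_YY_eval (E := fun _ => 1) FF _ _ _ _ _ _ _ _ _ _ _ ?_)]
  · rw [Finset.prod_const_one]
  · intro p hp
    have hX : T.w.V.valuation (T.v (S.t (ty ρ (m - 1))) - T.x (S.t (ty ρ (m - 1)))) ≠ 0 := by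
      rw [Ne, map_eq_zero, sub_eq_zero]
      exact rel_ne T.mov
    have ht := (T.tail p.1 (hFF p hp).1 p.2 (hFF p hp).2).1
    have e1 := hU K n m S D O L ρ T.s T.x T.u T.v _ _ T.w T.mov ht T.wtriv T.wmem T.wred j hj1 hjm
    have e2 := hU K n m S D O L ρ T.s T.x T.u T.v _ _ T.w T.mov ht T.wtriv T.wmem T.wred j' hj1'
      hjm'
    rw [hτ] at e1
    rw [hτ'] at e2
    rw [e1, e2, rel_pow_div hX]
    have : ((O.B τ j' : ℤ) * (O.B τ j) - (O.B τ j) * (O.B τ j') : ℤ) = 0 := by ring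
    rw [this, zpow_zero]

theorem relYY_mem {P L' : Type u} {k : Type u} [Field k] [Field L'] [Algebra k L']
    (F : IntermediateField k L') (FF : Finset P) (G H : P → L') (b b' A : ℕ) (X1 X2 X4 : L')
    (a1 a2 a4 : ℤ) (hG : ∀ p ∈ FF, G p ∈ F) (hH : ∀ p ∈ FF, H p ∈ F) (h1 : X1 ∈ F)
    (h2 : X2 ∈ F) (h4 : X4 ∈ F) : relYY FF G H b b' A X1 X2 X4 a1 a2 a4 ∈ F := by
  unfold relYY
  refine mul_mem (mul_mem (mul_mem (pow_mem (prod_mem ?_) _) (zpow_mem h1 _)) (zpow_mem h2 _))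
    (zpow_mem h4 _)
  intro p hp
  exact div_mem (pow_mem (hG p hp) _) (pow_mem (hH p hp) _)

theorem relY_mem (hE : ST_ENDS.{u}) (T : Setup S ρ L)
    (FF : Finset ((Fin n → L) × (Fin n → L)))
    (hFF : ∀ p ∈ FF, p.1 ∈ Fib S (ty ρ (m - 1)) T.x T.c₁ ∧ p.2 ∈ Fib S (ty ρ (m - 1)) T.x T.c₂)
    (j j' : ℕ) (hj1 : 1 ≤ j) (hjm : j ≤ m) (hj1' : 1 ≤ j') (hjm' : j' ≤ m)
    (b b' A : ℕ) (a1 a2 a4 : ℤ) :
    relut T ∈ cl K (T.s ∪ Set.range T.v) ∧
    relY D T FF j j' b b' A a1 a2 a4 ∈ cl K (T.s ∪ Set.range T.v) := by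
  have hm2 := S.two_le
  have hut : relut T ∈ cl K (T.s ∪ Set.range T.v) := by
    refine cl_le_cl ?_ (rel_u_mem hE T.mov (S.t (ty ρ m)))
    rintro a (⟨d, rfl⟩ | ha)
    · exact cl_mono Set.subset_union_left (T.mov.xs d)
    · exact mem_cl_of_mem (Or.inr ha)
  refine ⟨hut, ?_⟩
  have hs : ∀ c ∈ cl K T.s, c ∈ cl K (T.s ∪ Set.range T.v) := fun c hc =>
    cl_mono Set.subset_union_left hc
  have hg : ∀ p ∈ FF, ∀ i, 1 ≤ i → i ≤ m →
      gfun D ρ (T.c p.1 p.2) (T.a p.1 p.2) i ∈ cl K (T.s ∪ Set.range T.v) := by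
    intro p hp i hi him
    have ht := (T.tail p.1 (hFF p hp).1 p.2 (hFF p hp).2).1
    unfold gfun
    apply aeval_mem
    rintro (d | d)
    · apply hs
      apply ht.sub
      rw [pts]
      exact Set.mem_biUnion (x := m - i) (by rw [Set.mem_Iic]; omega) ⟨d, rfl⟩
    · have h1 := hE K n m 1 S.toSys L (ty ρ (m - 1)) m (T.a p.1 p.2) le_rfl ht.awalk ht.anb
        (m - i) (by omega) d
      refine cl_le_cl ?_ h1
      rintro a (ha | ha)
      · rw [ht.a0] at ha
        exact mem_cl_of_mem (Or.inr ha)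
      · rw [ht.am] at ha
        apply hs
        apply ht.sub
        rw [pts]
        exact Set.mem_biUnion (x := 2 * m - 1) (by rw [Set.mem_Iic]) ha
  unfold relY
  apply relYY_mem
  · exact fun p hp => hg p hp j hj1 hjm
  · exact fun p hp => hg p hp j' hj1' hjm'
  · exact sub_mem hut (hs _ T.mem₁)
  · exact sub_mem hut (hs _ T.mem₂)
  · exact sub_mem hut (hs _ T.mem₄)

theorem rel_ty_bodd (σ : Bool) (k : ℕ) : ty σ k = xor σ k.bodd := by
  induction k with
  | zero => simp [ty]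
  | succ k ih => rw [ty_succ, ih, Nat.bodd_succ]; cases σ <;> cases k.bodd <;> rfl

theorem rel_bodd_sub {m j : ℕ} (h : j ≤ m) : (m - j).bodd = xor m.bodd j.bodd := by
  have h1 : m.bodd = ((m - j) + j).bodd := by rw [Nat.sub_add_cancel h]
  rw [h1, Nat.bodd_add]
  cases (m - j).bodd <;> cases j.bodd <;> rfl

/-- the type of `c 0` -/
theorem rel_exists_rho (τ : Bool) {m j j' : ℕ} (hj : j ≤ m) (hj' : j' ≤ m)
    (h : ty τ j = ty τ j') : ∃ ρ, ty ρ (m - j) = τ ∧ ty ρ (m - j') = τ := by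
  refine ⟨ty τ (m - j), ?_, ?_⟩
  · rw [rel_ty_bodd, rel_ty_bodd]
    cases τ <;> cases (m - j).bodd <;> rfl
  · rw [rel_ty_bodd, rel_ty_bodd] at h ⊢
    rw [rel_bodd_sub hj, rel_bodd_sub hj']
    revert h
    cases τ <;> cases m.bodd <;> cases j.bodd <;> cases j'.bodd <;> simp

end main

section final

/-- one of the two inequalities -/
theorem rel_main (hH : ST_HART.{u}) (hG : ST_GOOD.{u}) (hA : ST_CASEA.{u})
    (hA2 : ST_CASEA2.{u}) (hB : ST_CASEB.{u}) (hU : ST_CASEU.{u}) (hS : ST_SETUP.{u})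
    (hF : ST_FIB.{u}) (hE : ST_ENDS.{u})
    (K : Type u) [Field K] [IsAlgClosed K] (n m : ℕ) (S : SysT K n m) (D : RData S)
    (O : Ords S D) (τ : Bool) (j j' : ℕ) (hj1 : 1 ≤ j) (hjm : j ≤ m) (hj1' : 1 ≤ j')
    (hjm' : j' ≤ m) (hty : ty τ j = ty τ j') :
    ¬ O.B τ j * (O.B τ (j' - 1) + O.B τ (j' + 1)) < O.B τ j' * (O.B τ (j - 1) + O.B τ (j + 1)) := by
  classical
  intro hlt
  obtain ⟨ρ, hρ, hρ'⟩ := rel_exists_rho τ hjm hjm' hty
  obtain ⟨L, iF, iA, iC, ⟨T⟩⟩ := hS K n m S ρ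
  -- the fibres
  have hfib := hF K n m S L (ty ρ (m - 1)) T.x T.vx
  let F1 : Finset (Fin n → L) := (hfib.1 T.c₁).toFinset
  let F2 : Finset (Fin n → L) := (hfib.1 T.c₂).toFinset
  have hF1 : ∀ z, z ∈ F1 ↔ z ∈ Fib S (ty ρ (m - 1)) T.x T.c₁ := fun z =>
    (hfib.1 T.c₁).mem_toFinset
  have hF2 : ∀ z, z ∈ F2 ↔ z ∈ Fib S (ty ρ (m - 1)) T.x T.c₂ := fun z =>
    (hfib.1 T.c₂).mem_toFinset
  have hd1 : F1.card = (Fib S (ty ρ (m - 1)) T.x T.c₁).ncard :=
    (Set.ncard_eq_toFinset_card _ (hfib.1 T.c₁)).symm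
  have hd2 : F2.card = (Fib S (ty ρ (m - 1)) T.x T.c₁).ncard := by
    rw [hfib.2.2.1 T.c₁ T.c₂ T.not₁ T.not₂]
    exact (Set.ncard_eq_toFinset_card _ (hfib.1 T.c₂)).symm
  have hd : 0 < (Fib S (ty ρ (m - 1)) T.x T.c₁).ncard := by
    rw [Set.ncard_pos (hfib.1 T.c₁)]
    exact hfib.2.1 T.c₁ T.not₁
  generalize (Fib S (ty ρ (m - 1)) T.x T.c₁).ncard = d at hd1 hd2 hd
  -- the exponents
  obtain ⟨α, hα⟩ : ∃ α : ℤ, α = O.B τ j' * O.B τ (j - 1) - O.B τ j * O.B τ (j' - 1) := ⟨_, rfl⟩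
  obtain ⟨β, hβ⟩ : ∃ β : ℤ, β = O.B τ j' * O.B τ (j + 1) - O.B τ j * O.B τ (j' + 1) := ⟨_, rfl⟩
  have hpos : 0 < α + β := by
    rw [hα, hβ]
    have h1 : ((O.B τ j * (O.B τ (j' - 1) + O.B τ (j' + 1)) : ℕ) : ℤ) <
      ((O.B τ j' * (O.B τ (j - 1) + O.B τ (j + 1)) : ℕ) : ℤ) := by exact_mod_cast hlt
    push_cast at h1
    linarith
  have hdpos : (0 : ℤ) < d * (α + β) := by
    have : (0 : ℤ) < d := by exact_mod_cast hd
    positivity
  have hFF : ∀ p ∈ F1 ×ˢ F2,
      p.1 ∈ Fib S (ty ρ (m - 1)) T.x T.c₁ ∧ p.2 ∈ Fib S (ty ρ (m - 1)) T.x T.c₂ := by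
    intro p hp
    rw [Finset.mem_product] at hp
    exact ⟨(hF1 _).mp hp.1, (hF2 _).mp hp.2⟩
  -- the function
  let Y : L := relY D T (F1 ×ˢ F2) j j' (O.B τ j) (O.B τ j') O.A
        (-(d * α)) (-(d * β)) (d * (α + β))
  obtain ⟨hUc, hUY⟩ := rel_valU D hU O T (F1 ×ˢ F2) hFF τ j j' hj1 hjm hj1' hjm' hρ hρ'
    (-(d * α)) (-(d * β)) (d * (α + β))
  obtain ⟨hutm, hYm⟩ := relY_mem D hE T (F1 ×ˢ F2) hFF j j' hj1 hjm hj1' hjm' (O.B τ j) (O.B τ j')
    O.A (-(d * α)) (-(d * β)) (d * (α + β))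
  have hac : IsAlgClosed (cl K T.s) := rel_isAlgClosed_cl T.s
  have hUV : ∀ c ∈ cl K T.s, c ∈ T.w.V := fun c hc =>
    (T.wtriv c (cl_mono Set.subset_union_left hc)).1
  obtain ⟨𝒱, h𝒱, hconc⟩ := hH (cl K T.s) L n T.v (fun i => ⟨T.x i, T.mov.xs i⟩) T.w.V
    (fun c => hUV c c.2) (by
      intro i
      have h1 : T.w.red (T.v i - T.x i) = 0 := by
        rw [rel_red_sub T.w (T.wmem i) (hUV _ (T.mov.xs i))]
        have := congrFun T.wred i
        exact sub_eq_zero.mpr this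
      exact (rel_red_eq_zero_iff T.w (sub_mem (T.wmem i) (hUV _ (T.mov.xs i)))).mp h1)
    (rel_rk_two hE T.mov) (relut T) (cl_cl_mem.mpr hutm) (fun c => hUc c c.2)
    {Y, (relut T - T.c₄)⁻¹} (Set.toFinite _) (by
      rintro a (rfl | rfl)
      · exact cl_cl_mem.mpr hYm
      · apply cl_cl_mem.mpr
        apply inv_mem
        exact sub_mem hutm (cl_mono Set.subset_union_left T.mem₄))
  -- all places in `𝒱` are good
  have hgood : ∀ V ∈ 𝒱, (V.valuation Y = 1 ∧ ¬ V.valuation (relut T - T.c₄) < 1) ∨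
      (V.valuation Y = V.valuation (relut T - T.c₄) ^ ((d : ℤ) * (α + β)) ∧
        V.valuation (relut T - T.c₄) < 1) := by
    intro V hV
    obtain ⟨g1, g2, g3, g4, g5⟩ := h𝒱 V hV
    obtain ⟨w, hw, hgw⟩ := hG K L n T.s T.mov.fin (fun i => ⟨T.x i, T.mov.xs i⟩) T.v V g1 g2 g3 g4
      g5
    subst hw
    exact rel_good D hA hA2 hB hF hE O T F1 F2 hF1 hF2 d hd1 hd2 hd τ j j' hj1 hjm hj1' hjm' hρ hρ'
      α β hα hβ w hgw
  have hne4 : relut T - T.c₄ ≠ 0 := by
    rw [Ne, sub_eq_zero]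
    intro h; exact rel_ut_not T (h ▸ T.mem₄)
  have hYV : ∀ V ∈ 𝒱, Y ∈ V := by
    intro V hV
    rw [← V.valuation_le_one_iff]
    rcases hgood V hV with ⟨h1, -⟩ | ⟨h1, h2⟩
    · exact h1.le
    · rw [h1]
      have h3 : (0 : ℤ) ≤ d * (α + β) := hdpos.le
      obtain ⟨N, hN⟩ := Int.eq_ofNat_of_zero_le h3
      rw [hN, zpow_natCast]
      exact pow_le_one₀ zero_le h2.le
  have hY1 := (hconc Y (Or.inl rfl) hYV).2
  have hU4 : ∀ V ∈ 𝒱, (relut T - T.c₄)⁻¹ ∈ V := by
    intro V hV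
    have h4 : ¬ V.valuation (relut T - T.c₄) < 1 := by
      intro h4
      rcases hgood V hV with ⟨-, h2⟩ | ⟨h1, -⟩
      · exact h2 h4
      · have h5 : V.valuation Y < 1 := by
          rw [h1]
          obtain ⟨N, hN⟩ := Int.eq_ofNat_of_zero_le hdpos.le
          rw [hN, zpow_natCast]
          have hN0 : N ≠ 0 := by
            rintro rfl
            rw [hN] at hdpos
            exact lt_irrefl _ hdpos
          exact pow_lt_one₀ zero_le h4 hN0
        have h6 := hY1 V hV h5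
        have h7 : T.w.V.valuation Y = 1 := hUY
        rw [h7] at h6
        exact lt_irrefl _ h6
    rw [← V.valuation_le_one_iff, map_inv₀]
    exact inv_le_one_of_one_le₀ (not_lt.mp h4)
  obtain ⟨⟨c, hc⟩, -⟩ := hconc _ (Or.inr rfl) hU4
  have hval4 : T.w.V.valuation (relut T - T.c₄) = 1 := hUc _ T.mem₄
  -- `c ≠ 0`
  have hc0 : (c : L) ≠ 0 := by
    intro h0
    have h1 : algebraMap (cl K T.s) L c = 0 := h0
    rw [h1, sub_zero, map_inv₀, hval4, inv_one] at hc
    exact lt_irrefl _ hc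
  have hcs : T.w.V.valuation (c : L) = 1 :=
    rel_triv_val T.w T.wtriv (cl_mono Set.subset_union_left c.2) hc0
  have h8 := hUc (T.c₄ + (c : L)⁻¹) (add_mem T.mem₄ (inv_mem c.2))
  have h9 : relut T - (T.c₄ + (c : L)⁻¹) =
      -((relut T - T.c₄) * ((c : L)⁻¹) * ((relut T - T.c₄)⁻¹ - (c : L))) := by
    field_simp
    ring
  have h10 : T.w.V.valuation ((relut T - T.c₄)⁻¹ - (c : L)) < 1 := hc
  rw [h9, Valuation.map_neg, map_mul, map_mul, map_inv₀, hval4, hcs, inv_one, one_mul,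
    one_mul] at h8
  exact absurd h8 h10.ne

/-- The relation between the orders. -/
theorem st_REL (hH : ST_HART.{u}) (hG : ST_GOOD.{u}) (hA : ST_CASEA.{u})
    (hA2 : ST_CASEA2.{u}) (hB : ST_CASEB.{u}) (hU : ST_CASEU.{u}) (hS : ST_SETUP.{u})
    (hF : ST_FIB.{u}) (hE : ST_ENDS.{u}) : ST_REL.{u} := by
  intro K _ _ n m S D O τ j j' hj1 hjm hj1' hjm' hty
  have h1 := rel_main hH hG hA hA2 hB hU hS hF hE K n m S D O τ j j' hj1 hjm hj1' hjm' hty
  have h2 := rel_main hH hG hA hA2 hB hU hS hF hE K n m S D O τ j' j hj1' hjm' hj1 hjm hty.symm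
  omega

end final

end Pool.Agent.Helper92.GG
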